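import Pool.Agent.Zilber.Forms

/-!
# Intersections of subvarieties of the torus with torsion cosets

Outline of the proof (files `Pool/Agent/Zil`, `Pool/Agent/Zilber`).
(1) It is enough to treat varieties defined over the algebraic numbers, in fact the powers of a
line (`Zil/RFin`, `CITLines`).
(2) If `X` is an atypical subvariety of `V`, coordinates which are independent on `X` are set equal
to roots of unity; this gives algebraic points `P` of `V`, outside any given hypersurface which does
not contain `X`, whose coordinates generate a group of rank `≤ n - dim V - 1` (`Zil/RCut`). So it is
enough that such points are not dense in `V` if `V` lies in no proper torsion coset; tuples of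
points remove monomials which are constant on `V` (`Zil/KND`).
(3) Otherwise take the ultralimit `P` of a dense sequence of such points. The heights of its
monomials are sorted by archimedean classes (scales), and the normalised local heights have a limit
`N`, a seminorm on `ℝ^n` whose kernel `K` has dimension `≥ dim V + 1`, because of the relations
(`Zilber/Scales`). Theorem M (`Zilber/Ind`): `dim K ≤ t`, the sum over the scales of the
transcendence degrees of the blocks, which is at most `dim V`: a contradiction. Theorem M is proved
by induction on `n`, with a lemma of Ax type for products (`Zilber/N2C`).
(4) If no monomial has bounded height: an integer polynomial in the coordinates vanishes to high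
order along one divisor (Siegel's lemma, `AAux`); the places near the divisor and the product
formula force it to vanish to high order at `P`, against the zero estimate for products (`BLow`).
(5) If there are monomials of bounded height, let `f` be the irreducible integer relation between
`d + 1` long monomials. A lower bound for the norm of `f` in terms of its degree (`DGam`: faces of
`f`, torsion points, Jensen) and the pigeonhole principle (`DAlpha`) give an integer polynomial
which is not divisible by `f` and very small modulo `f` at all infinite places; again the product
formula against the zero estimate (`DEnd`).
-/

set_option autoImplicit false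

namespace Pool.Agent.Results.MP_b7926e_nt.AllForms

open Pool.Agent.Zilber.Forms

/-- Zilber's conjecture on intersections with tori (Q1) in all its listed forms. Let `V` be an
irreducible Zariski closed subset of `(ℂ^×)^n`. There are finitely many proper special varieties
such that each atypical subvariety of `V` lies in one of them; `V` has only finitely many maximal
atypical subvarieties; the union `Atyp V` of all atypical subvarieties lies in a finite union of
proper special varieties; and `Atyp V` is Zariski closed. -/
theorem result (n : ℕ) (V : Set (Fin n → ℂ)) (hV : IsZariskiClosed V) (hirr : IsIrred V) :
    (∃ F : Set (Set (Fin n → ℂ)), F.Finite ∧ (∀ T ∈ F, IsSpecial T ∧ T ≠ torus n) ∧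
      ∀ X, IsAtypicalSub V X → ∃ T ∈ F, X ⊆ T) ∧
    {X | IsMaxAtypicalSub V X}.Finite ∧
    (∃ F : Set (Set (Fin n → ℂ)), F.Finite ∧ (∀ T ∈ F, IsSpecial T ∧ T ≠ torus n) ∧
      Atyp V ⊆ ⋃₀ F) ∧
    IsZariskiClosed (Atyp V) :=
  all_forms n V hV hirr

end Pool.Agent.Results.MP_b7926e_nt.AllForms
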